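import Pool.Agent.QSN.StmtsE

/-!
# QSN, row OEM: `SO (p, p + d)` in `SO (p, p + d + 1)`
-/

set_option autoImplicit false

namespace Pool.Agent.QSN.H60

open Finset Matrix Pool.Agent.QSX

/-- the order preserving injection which omits the index `p + d` -/
def ff (p d : ℕ) (i : Fin (2 * p + d)) : Fin (2 * p + (d + 1)) :=
  ⟨if (i : ℕ) < p + d then (i : ℕ) else (i : ℕ) + 1, by
    have := i.2
    split_ifs <;> omega⟩

theorem ff_lt {p d : ℕ} {i : Fin (2 * p + d)} (h : (i : ℕ) < p + d) :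
    (ff p d i : ℕ) = (i : ℕ) := if_pos h

theorem ff_ge {p d : ℕ} {i : Fin (2 * p + d)} (h : ¬ (i : ℕ) < p + d) :
    (ff p d i : ℕ) = (i : ℕ) + 1 := if_neg h

/-- the omitted index -/
def e0 (p d : ℕ) : Fin (2 * p + (d + 1)) := ⟨p + d, by omega⟩

theorem ff_le {p d : ℕ} {i j : Fin (2 * p + d)} : ff p d i ≤ ff p d j ↔ i ≤ j := by
  rw [Fin.le_def, Fin.le_def]
  by_cases hi : (i : ℕ) < p + d <;> by_cases hj : (j : ℕ) < p + d
  · rw [ff_lt hi, ff_lt hj]
  · rw [ff_lt hi, ff_ge hj]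
    omega
  · rw [ff_ge hi, ff_lt hj]
    omega
  · rw [ff_ge hi, ff_ge hj]
    omega

theorem ff_inj {p d : ℕ} {i j : Fin (2 * p + d)} (h : ff p d i = ff p d j) : i = j :=
  le_antisymm (ff_le.1 h.le) (ff_le.1 h.ge)

theorem ff_cases {p d : ℕ} (a : Fin (2 * p + (d + 1))) : a = e0 p d ∨ ∃ i, a = ff p d i := by
  rcases lt_trichotomy (a : ℕ) (p + d) with h | h | h
  · right
    refine ⟨⟨a, by omega⟩, ?_⟩
    apply Fin.ext
    rw [ff_lt (i := ⟨(a : ℕ), by omega⟩) h]
  · left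
    exact Fin.ext h
  · right
    have ha := a.2
    refine ⟨⟨(a : ℕ) - 1, by omega⟩, ?_⟩
    apply Fin.ext
    rw [ff_ge (i := ⟨(a : ℕ) - 1, by omega⟩) (by show ¬ (a : ℕ) - 1 < p + d; omega)]
    show (a : ℕ) = (a : ℕ) - 1 + 1
    omega

theorem ff_ne_e0 {p d : ℕ} (i : Fin (2 * p + d)) : e0 p d ≠ ff p d i := by
  intro h
  have h1 : p + d = (ff p d i : ℕ) := congrArg Fin.val h
  by_cases hi : (i : ℕ) < p + d
  · rw [ff_lt hi] at h1
    omega
  · rw [ff_ge hi] at h1
    omega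

theorem md_ff {p d : ℕ} (i : Fin (2 * p + d)) : Md p (d + 1) (ff p d i) ↔ Md p d i := by
  unfold Md
  by_cases hi : (i : ℕ) < p + d
  · rw [ff_lt hi]
    omega
  · rw [ff_ge hi]
    omega

theorem sg_ff {p d : ℕ} (i : Fin (2 * p + d)) : sg p (d + 1) (ff p d i) = ff p d (sg p d i) := by
  by_cases h : Md p d i
  · rw [sg_mid h, sg_mid ((md_ff i).2 h)]
  · rw [sg_out h, sg_out (fun h' => h ((md_ff i).1 h'))]
    apply Fin.ext
    rw [Fin.val_rev]
    have hi2 := i.2
    by_cases hi : (i : ℕ) < p + d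
    · have hip : (i : ℕ) < p := by
        unfold Md at h
        omega
      rw [ff_lt hi, ff_ge (by rw [Fin.val_rev]; omega), Fin.val_rev]
      omega
    · rw [ff_ge hi, ff_lt (by rw [Fin.val_rev]; omega), Fin.val_rev]
      omega

theorem md_e0 (p d : ℕ) : Md p (d + 1) (e0 p d) := by
  constructor
  · show p ≤ p + d
    omega
  · show p + d < p + (d + 1)
    omega

theorem sg_e0 (p d : ℕ) : sg p (d + 1) (e0 p d) = e0 p d := sg_mid (md_e0 p d)

/-- the matrix of the inclusion -/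
noncomputable def EE (p d : ℕ) : Matrix (Fin (2 * p + (d + 1))) (Fin (2 * p + d)) ℝ :=
  Matrix.of fun a i => if a = ff p d i then 1 else 0

theorem EE_apply (p d : ℕ) (a : Fin (2 * p + (d + 1))) (i : Fin (2 * p + d)) :
    EE p d a i = if a = ff p d i then 1 else 0 := rfl

theorem EE_e0 (p d : ℕ) (i : Fin (2 * p + d)) : EE p d (e0 p d) i = 0 := by
  rw [EE_apply, if_neg (ff_ne_e0 i)]

theorem EE_ff (p d : ℕ) (j i : Fin (2 * p + d)) : EE p d (ff p d j) i = if j = i then 1 else 0 := by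
  rw [EE_apply]
  by_cases h : j = i
  · rw [if_pos (congrArg (ff p d) h), if_pos h]
  · rw [if_neg (fun h' => h (ff_inj h')), if_neg h]

theorem EE_sand (p d : ℕ) (M : Matrix (Fin (2 * p + (d + 1))) (Fin (2 * p + (d + 1))) ℝ)
    (i j : Fin (2 * p + d)) : ((EE p d)ᵀ * M * EE p d) i j = M (ff p d i) (ff p d j) := by
  rw [Matrix.mul_apply, Finset.sum_eq_single (ff p d j)]
  · rw [Matrix.mul_apply, Finset.sum_eq_single (ff p d i)]
    · rw [Matrix.transpose_apply, EE_apply, EE_apply, if_pos rfl, if_pos rfl, one_mul, mul_one]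
    · intro b _ hb
      rw [Matrix.transpose_apply, EE_apply, if_neg hb, zero_mul]
    · intro h
      exact absurd (Finset.mem_univ _) h
  · intro b _ hb
    rw [EE_apply, if_neg hb, mul_zero]
  · intro h
    exact absurd (Finset.mem_univ _) h

theorem EE_tr (p d : ℕ) : (EE p d)ᵀ * EE p d = 1 := by
  ext i j
  rw [Matrix.mul_apply, Finset.sum_eq_single (ff p d j)]
  · rw [Matrix.transpose_apply, EE_ff, EE_ff, if_pos rfl, mul_one, Matrix.one_apply]
    by_cases h : i = j
    · rw [if_pos h.symm, if_pos h]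
    · rw [if_neg (fun h' => h h'.symm), if_neg h]
  · intro b _ hb
    rw [EE_apply p d b j, if_neg hb, mul_zero]
  · intro h
    exact absurd (Finset.mem_univ _) h

/-- the embedding of matrices -/
noncomputable def TT (p d : ℕ) : Matrix (Fin (2 * p + d)) (Fin (2 * p + d)) ℝ →ₗ[ℝ]
    Matrix (Fin (2 * p + (d + 1))) (Fin (2 * p + (d + 1))) ℝ where
  toFun x := EE p d * x * (EE p d)ᵀ
  map_add' := by
    intro x y
    rw [Matrix.mul_add, Matrix.add_mul]
  map_smul' := by
    intro r x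
    rw [RingHom.id_apply, Matrix.mul_smul, Matrix.smul_mul]

theorem TT_apply (p d : ℕ) (x : Matrix (Fin (2 * p + d)) (Fin (2 * p + d)) ℝ) :
    TT p d x = EE p d * x * (EE p d)ᵀ := rfl

theorem TT_back (p d : ℕ) (x : Matrix (Fin (2 * p + d)) (Fin (2 * p + d)) ℝ) :
    (EE p d)ᵀ * TT p d x * EE p d = x := by
  rw [TT_apply]
  calc (EE p d)ᵀ * (EE p d * x * (EE p d)ᵀ) * EE p d
      = ((EE p d)ᵀ * EE p d) * x * ((EE p d)ᵀ * EE p d) := by simp only [Matrix.mul_assoc]
    _ = x := by rw [EE_tr, Matrix.one_mul, Matrix.mul_one]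

theorem TT_ff (p d : ℕ) (x : Matrix (Fin (2 * p + d)) (Fin (2 * p + d)) ℝ)
    (i j : Fin (2 * p + d)) : TT p d x (ff p d i) (ff p d j) = x i j :=
  (EE_sand p d (TT p d x) i j).symm.trans (by rw [TT_back])

theorem TT_l (p d : ℕ) (x : Matrix (Fin (2 * p + d)) (Fin (2 * p + d)) ℝ)
    (b : Fin (2 * p + (d + 1))) : TT p d x (e0 p d) b = 0 := by
  rw [TT_apply, Matrix.mul_assoc, Matrix.mul_apply]
  refine Finset.sum_eq_zero fun i _ => ?_
  rw [EE_e0, zero_mul]

theorem TT_r (p d : ℕ) (x : Matrix (Fin (2 * p + d)) (Fin (2 * p + d)) ℝ)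
    (b : Fin (2 * p + (d + 1))) : TT p d x b (e0 p d) = 0 := by
  rw [TT_apply, Matrix.mul_apply]
  refine Finset.sum_eq_zero fun i _ => ?_
  rw [Matrix.transpose_apply, EE_e0, mul_zero]

theorem TT_mul (p d : ℕ) (x y : Matrix (Fin (2 * p + d)) (Fin (2 * p + d)) ℝ) :
    TT p d (x * y) = TT p d x * TT p d y := by
  rw [TT_apply, TT_apply, TT_apply]
  calc EE p d * (x * y) * (EE p d)ᵀ =
        EE p d * x * (1 : Matrix (Fin (2 * p + d)) (Fin (2 * p + d)) ℝ) * (y * (EE p d)ᵀ) := by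
        rw [Matrix.mul_one]
        simp only [Matrix.mul_assoc]
    _ = EE p d * x * ((EE p d)ᵀ * EE p d) * (y * (EE p d)ᵀ) := by rw [EE_tr]
    _ = EE p d * x * (EE p d)ᵀ * (EE p d * y * (EE p d)ᵀ) := by simp only [Matrix.mul_assoc]

theorem TT_inj (p d : ℕ) {x y : Matrix (Fin (2 * p + d)) (Fin (2 * p + d)) ℝ}
    (h : TT p d x = TT p d y) : x = y := by
  rw [← TT_back p d x, h, TT_back]

/-- the embedding of vectors -/
noncomputable def PP (p d : ℕ) : (Fin (2 * p + d) → ℝ) →ₗ[ℝ] (Fin (2 * p + (d + 1)) → ℝ) :=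
  (EE p d).mulVecLin

theorem PP_ff (p d : ℕ) (c : Fin (2 * p + d) → ℝ) (i : Fin (2 * p + d)) :
    PP p d c (ff p d i) = c i := by
  show (EE p d).mulVec c (ff p d i) = c i
  rw [Matrix.mulVec, dotProduct, Finset.sum_eq_single i]
  · rw [EE_ff, if_pos rfl, one_mul]
  · intro b _ hb
    rw [EE_ff, if_neg (fun h => hb h.symm), zero_mul]
  · intro h
    exact absurd (Finset.mem_univ _) h

theorem PP_e0 (p d : ℕ) (c : Fin (2 * p + d) → ℝ) : PP p d c (e0 p d) = 0 := by
  show (EE p d).mulVec c (e0 p d) = 0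
  rw [Matrix.mulVec, dotProduct]
  refine Finset.sum_eq_zero fun i _ => ?_
  rw [EE_e0, zero_mul]

theorem diag_EE (p d : ℕ) (c : Fin (2 * p + d) → ℝ) :
    diagonal (PP p d c) * EE p d = EE p d * diagonal c := by
  ext a i
  rw [Matrix.diagonal_mul, Matrix.mul_diagonal, EE_apply]
  by_cases h : a = ff p d i
  · rw [if_pos h, h, PP_ff, mul_one, one_mul]
  · rw [if_neg h, mul_zero, zero_mul]

theorem EEt_diag (p d : ℕ) (c : Fin (2 * p + d) → ℝ) :
    (EE p d)ᵀ * diagonal (PP p d c) = diagonal c * (EE p d)ᵀ := by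
  have h := congrArg Matrix.transpose (diag_EE p d c)
  rw [Matrix.transpose_mul, Matrix.transpose_mul, Matrix.diagonal_transpose,
    Matrix.diagonal_transpose] at h
  exact h

theorem TT_dl (p d : ℕ) (c : Fin (2 * p + d) → ℝ)
    (x : Matrix (Fin (2 * p + d)) (Fin (2 * p + d)) ℝ) :
    TT p d (diagonal c * x) = diagonal (PP p d c) * TT p d x := by
  rw [TT_apply, TT_apply, ← Matrix.mul_assoc, ← diag_EE]
  simp only [Matrix.mul_assoc]

theorem TT_dr (p d : ℕ) (c : Fin (2 * p + d) → ℝ)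
    (x : Matrix (Fin (2 * p + d)) (Fin (2 * p + d)) ℝ) :
    TT p d (x * diagonal c) = TT p d x * diagonal (PP p d c) := by
  rw [TT_apply, TT_apply, Matrix.mul_assoc (EE p d * x), EEt_diag]
  simp only [Matrix.mul_assoc]

theorem TT_br (p d : ℕ) (x y : Matrix (Fin (2 * p + d)) (Fin (2 * p + d)) ℝ) :
    TT p d (x * y - y * x) = TT p d x * TT p d y - TT p d y * TT p d x := by
  rw [map_sub, TT_mul, TT_mul]

theorem TT_ac (p d : ℕ) (c : Fin (2 * p + d) → ℝ)
    (x : Matrix (Fin (2 * p + d)) (Fin (2 * p + d)) ℝ) :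
    TT p d (diagonal c * x - x * diagonal c) =
      diagonal (PP p d c) * TT p d x - TT p d x * diagonal (PP p d c) := by
  rw [map_sub, TT_dl, TT_dr]

theorem TT_mem (p d : ℕ) (x : Matrix (Fin (2 * p + d)) (Fin (2 * p + d)) ℝ)
    (hx : x ∈ (datO p d).n) : TT p d x ∈ (datO p (d + 1)).n := by
  obtain ⟨h1, h2, h3⟩ := hx
  refine ⟨?_, ?_, ?_⟩
  · intro a b hab
    rcases ff_cases a with rfl | ⟨i, rfl⟩
    · exact TT_l p d x b
    · rcases ff_cases b with rfl | ⟨j, rfl⟩
      · exact TT_r p d x _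
      · rw [TT_ff]
        exact h1 i j (ff_le.1 hab)
  · intro a b
    rcases ff_cases a with rfl | ⟨i, rfl⟩
    · rw [sg_e0, TT_r, TT_l, neg_zero]
    · rcases ff_cases b with rfl | ⟨j, rfl⟩
      · rw [sg_e0, TT_r, TT_l, neg_zero]
      · rw [sg_ff, sg_ff, TT_ff, TT_ff]
        exact h2 i j
  · intro a b ha hb
    rcases ff_cases a with rfl | ⟨i, rfl⟩
    · exact TT_l p d x b
    · rcases ff_cases b with rfl | ⟨j, rfl⟩
      · exact TT_r p d x _
      · rw [TT_ff]
        exact h3 i j ((md_ff i).1 ha) ((md_ff j).1 hb)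

theorem PP_mem (p d : ℕ) (c : Fin (2 * p + d) → ℝ) (hc : c ∈ (datO p d).b) :
    PP p d c ∈ (datO p (d + 1)).b := by
  have hc' : ∀ i, c (sg p d i) = - c i := hc
  show ∀ a, PP p d c (sg p (d + 1) a) = - PP p d c a
  intro a
  rcases ff_cases a with rfl | ⟨i, rfl⟩
  · rw [sg_e0, PP_e0, neg_zero]
  · rw [sg_ff, PP_ff, PP_ff]
    exact hc' i

theorem PP_inj (p d : ℕ) {c c' : Fin (2 * p + d) → ℝ} (h : PP p d c = PP p d c') : c = c' := by
  funext i
  rw [← PP_ff p d c i, h, PP_ff]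

theorem emb (p d : ℕ) : AlgEmb (datO p d) (datO p (d + 1)) := by
  refine ⟨(TT p d).comp (datO p d).n.subtype, (PP p d).comp (datO p d).b.subtype,
    fun x => TT_mem p d x.1 x.2, fun a => PP_mem p d a.1 a.2, ?_, ?_, ?_, ?_⟩
  · intro x y h
    exact Subtype.ext (TT_inj p d h)
  · intro a b h
    exact Subtype.ext (PP_inj p d h)
  · intro x y
    exact TT_br p d x.1 y.1
  · intro a x
    exact TT_ac p d a.1 x.1

/-- restriction to the first `p` coordinates -/
def res (p d : ℕ) : (datO p d).b →ₗ[ℝ] (Fin p → ℝ) where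
  toFun c := fun i => (c.1 : Fin (2 * p + d) → ℝ)
    ⟨(i : ℕ), show (i : ℕ) < 2 * p + d by have := i.2; omega⟩
  map_add' := fun _ _ => rfl
  map_smul' := fun _ _ => rfl

/-- the inverse -/
def inv (p d : ℕ) (c' : Fin p → ℝ) (i : Fin (2 * p + d)) : ℝ :=
  if h : (i : ℕ) < p then c' ⟨(i : ℕ), h⟩ else
    if h' : 2 * p + d - ((i : ℕ) + 1) < p then - c' ⟨2 * p + d - ((i : ℕ) + 1), h'⟩ else 0

theorem inv_sg (p d : ℕ) (c' : Fin p → ℝ) (i : Fin (2 * p + d)) :
    inv p d c' (sg p d i) = - inv p d c' i := by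
  have hi2 := i.2
  by_cases hm : Md p d i
  · rw [sg_mid hm]
    unfold Md at hm
    unfold inv
    rw [dif_neg (by omega), dif_neg (by omega), neg_zero]
  · rw [sg_out hm]
    have hrev : ((Fin.rev i : Fin (2 * p + d)) : ℕ) = 2 * p + d - ((i : ℕ) + 1) := Fin.val_rev i
    unfold Md at hm
    unfold inv
    by_cases hi : (i : ℕ) < p
    · have h3 : ¬ ((Fin.rev i : Fin (2 * p + d)) : ℕ) < p := by omega
      have h4 : 2 * p + d - (((Fin.rev i : Fin (2 * p + d)) : ℕ) + 1) < p := by omega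
      rw [dif_neg h3, dif_pos h4, dif_pos hi]
      congr 2
      apply Fin.ext
      show 2 * p + d - (((Fin.rev i : Fin (2 * p + d)) : ℕ) + 1) = (i : ℕ)
      omega
    · have h3 : ((Fin.rev i : Fin (2 * p + d)) : ℕ) < p := by omega
      have h4 : 2 * p + d - ((i : ℕ) + 1) < p := by omega
      rw [dif_pos h3, dif_neg hi, dif_pos h4, neg_neg]
      congr 1

theorem rank (p d : ℕ) : Module.finrank ℝ (datO p d).b = p := by
  have hinj : Function.Injective (res p d) := by
    rw [injective_iff_map_eq_zero]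
    rintro ⟨c, hc2⟩ hc
    have hc' : ∀ i : Fin (2 * p + d), c (sg p d i) = - c i := hc2
    have h0 : ∀ i : Fin (2 * p + d), (i : ℕ) < p → c i = 0 := by
      intro i hi
      exact congrFun hc ⟨(i : ℕ), hi⟩
    apply Subtype.ext
    show c = 0
    funext (i : Fin (2 * p + d))
    show c i = 0
    by_cases hm : Md p d i
    · have h1 := hc' i
      rw [sg_mid hm] at h1
      linarith
    · by_cases hi : (i : ℕ) < p
      · exact h0 i hi
      · have h1 := hc' i
        have h2 : c (sg p d i) = 0 := by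
          apply h0
          rw [sg_out hm, Fin.val_rev]
          unfold Md at hm
          have := i.2
          omega
        rw [h2] at h1
        linarith
  have hsur : Function.Surjective (res p d) := by
    intro c'
    refine ⟨⟨inv p d c', inv_sg p d c'⟩, ?_⟩
    funext i
    show inv p d c' ⟨(i : ℕ), _⟩ = c' i
    unfold inv
    rw [dif_pos i.2]
  rw [LinearEquiv.finrank_eq (LinearEquiv.ofBijective (res p d) ⟨hinj, hsur⟩),
    Module.finrank_fin_fun]

theorem dims (p d : ℕ) (hp : 1 ≤ p) :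
    Module.finrank ℝ (datO p d).n < Module.finrank ℝ (datO p (d + 1)).n := by
  set T' : (datO p d).n →ₗ[ℝ] (datO p (d + 1)).n :=
    ((TT p d).comp (datO p d).n.subtype).codRestrict (datO p (d + 1)).n
      (fun x => TT_mem p d x.1 x.2) with hT'
  have hinj : Function.Injective T' := by
    intro x y h
    exact Subtype.ext (TT_inj p d (congrArg Subtype.val h))
  by_contra hcon
  push Not at hcon
  have hle := LinearMap.finrank_le_finrank_of_injective hinj
  have heq := le_antisymm hle hcon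
  have hsur := (LinearMap.injective_iff_surjective_of_finrank_eq_finrank heq).1 hinj
  obtain ⟨z0, hz0⟩ : ∃ z0 : Fin (2 * p + (d + 1)), (z0 : ℕ) = 0 := ⟨⟨0, by omega⟩, rfl⟩
  have hz0m : ¬ Md p (d + 1) z0 := by
    unfold Md
    omega
  have hz0r : ¬ Md p (d + 1) (Fin.rev z0) := fun h => hz0m (md_rev.1 h)
  have hrv : ((Fin.rev z0 : Fin (2 * p + (d + 1))) : ℕ) = 2 * p + d := by
    rw [Fin.val_rev, hz0]
    omega
  have he0 : (e0 p d : ℕ) = p + d := rfl
  have hsz : sg p (d + 1) z0 = Fin.rev z0 := sg_out hz0m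
  have hsr : sg p (d + 1) (Fin.rev z0) = z0 := by rw [← hsz, sg_sg]
  have hmem : (Matrix.of fun a b : Fin (2 * p + (d + 1)) =>
      (if a = z0 ∧ b = e0 p d then (1 : ℝ) else 0) -
        (if a = e0 p d ∧ b = Fin.rev z0 then 1 else 0)) ∈ (datO p (d + 1)).n := by
    refine ⟨?_, ?_, ?_⟩
    · intro a b hab
      show (if a = z0 ∧ b = e0 p d then (1 : ℝ) else 0) -
        (if a = e0 p d ∧ b = Fin.rev z0 then 1 else 0) = 0
      rw [if_neg, if_neg, sub_zero]
      · rintro ⟨rfl, rfl⟩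
        rw [Fin.le_def, hrv, he0] at hab
        omega
      · rintro ⟨rfl, rfl⟩
        rw [Fin.le_def, hz0, he0] at hab
        omega
    · intro a b
      show (if sg p (d + 1) b = z0 ∧ sg p (d + 1) a = e0 p d then (1 : ℝ) else 0) -
        (if sg p (d + 1) b = e0 p d ∧ sg p (d + 1) a = Fin.rev z0 then 1 else 0) =
        -((if a = z0 ∧ b = e0 p d then (1 : ℝ) else 0) -
        (if a = e0 p d ∧ b = Fin.rev z0 then 1 else 0))
      have hs : ∀ u v : Fin (2 * p + (d + 1)), sg p (d + 1) u = v ↔ u = sg p (d + 1) v := by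
        intro u v
        constructor
        · rintro rfl
          rw [sg_sg]
        · rintro rfl
          rw [sg_sg]
      have e1 : (sg p (d + 1) b = z0 ∧ sg p (d + 1) a = e0 p d) ↔
          (a = e0 p d ∧ b = Fin.rev z0) := by
        rw [hs b z0, hs a (e0 p d), hsz, sg_e0, and_comm]
      have e2 : (sg p (d + 1) b = e0 p d ∧ sg p (d + 1) a = Fin.rev z0) ↔
          (a = z0 ∧ b = e0 p d) := by
        rw [hs b (e0 p d), hs a (Fin.rev z0), hsr, sg_e0, and_comm]
      rw [if_congr e1 rfl rfl, if_congr e2 rfl rfl]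
      ring
    · intro a b ha hb
      show (if a = z0 ∧ b = e0 p d then (1 : ℝ) else 0) -
        (if a = e0 p d ∧ b = Fin.rev z0 then 1 else 0) = 0
      rw [if_neg, if_neg, sub_zero]
      · rintro ⟨rfl, rfl⟩
        exact hz0r hb
      · rintro ⟨rfl, rfl⟩
        exact hz0m ha
  obtain ⟨x, hx⟩ := hsur ⟨_, hmem⟩
  have h1 : TT p d x.1 = Matrix.of fun a b : Fin (2 * p + (d + 1)) =>
      (if a = z0 ∧ b = e0 p d then (1 : ℝ) else 0) -
        (if a = e0 p d ∧ b = Fin.rev z0 then 1 else 0) := congrArg Subtype.val hx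
  have h2 := congrFun (congrFun h1 z0) (e0 p d)
  rw [TT_r, Matrix.of_apply, if_pos ⟨rfl, rfl⟩, if_neg, sub_zero] at h2
  · exact zero_ne_one h2
  · rintro ⟨h3, -⟩
    have h4 := congrArg Fin.val h3
    rw [hz0, he0] at h4
    omega

/-- **OEM** -/
theorem oem : OemStmt := fun p d hp => ⟨emb p d, rank p d, dims p d hp⟩

end Pool.Agent.QSN.H60
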