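import Pool.Agent.QSN.StmtsC

/-!
# QSN, row ALN: the algebraic embedding
-/

set_option autoImplicit false

namespace Pool.Agent.QSN.H60

open Finset Matrix Pool.Agent.QSX

theorem map_br {X : Dat} (hX : MS X) {M M' : Type} [AddCommGroup M] [Module ℝ M]
    [AddCommGroup M'] [Module ℝ M'] (f : M →ₗ[ℝ] M') (C : hX.ι → M) (l l' : hX.ι) :
    f (hX.br C l l') = hX.br (fun t => f (C t)) l l' := by
  unfold MS.br
  rw [map_list_sum, List.map_map]
  congr 1
  apply List.map_congr_left
  intro t _
  simp only [Function.comp_apply, map_smul]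

theorem nF_real (Y : Dat) (A : Matrix (Fin Y.m) (Fin Y.m) ℝ) (h : A ∈ Y.nF ℝ) : A ∈ Y.n := by
  have hle : Y.nF ℝ ≤ Y.n := by
    unfold Dat.nF
    rw [Submodule.span_le]
    rintro _ ⟨y, hy, rfl⟩
    have : y.map (algebraMap ℝ ℝ) = y := by
      ext i j
      rfl
    show y.map (algebraMap ℝ ℝ) ∈ Y.n
    rw [this]
    exact hy
  exact hle h

/-- The bracket as a bilinear map, followed by a linear map. -/
noncomputable def brL (X : Dat) {m : ℕ} (T : X.n →ₗ[ℝ] Matrix (Fin m) (Fin m) ℝ) :
    X.n →ₗ[ℝ] X.n →ₗ[ℝ] Matrix (Fin m) (Fin m) ℝ :=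
  LinearMap.mk₂ ℝ (fun x y : X.n => T ⟨(x : Matrix (Fin X.m) (Fin X.m) ℝ) * y - y * x,
      X.lie x x.2 y y.2⟩)
    (by
      intro x x' y
      rw [← map_add]
      congr 1
      apply Subtype.ext
      show ((x + x' : X.n) : Matrix (Fin X.m) (Fin X.m) ℝ) * y - y * (x + x' : X.n) =
        (x * y - y * x) + (x' * y - y * x')
      rw [Submodule.coe_add]
      noncomm_ring)
    (by
      intro c x y
      rw [← map_smul]
      congr 1
      apply Subtype.ext
      show ((c • x : X.n) : Matrix (Fin X.m) (Fin X.m) ℝ) * y - y * (c • x : X.n) =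
        c • (x * y - y * x)
      rw [Submodule.coe_smul, smul_mul_assoc, mul_smul_comm, smul_sub])
    (by
      intro x y y'
      rw [← map_add]
      congr 1
      apply Subtype.ext
      show (x : Matrix (Fin X.m) (Fin X.m) ℝ) * (y + y' : X.n) - (y + y' : X.n) * x =
        (x * y - y * x) + (x * y' - y' * x)
      rw [Submodule.coe_add]
      noncomm_ring)
    (by
      intro c x y
      rw [← map_smul]
      congr 1
      apply Subtype.ext
      show (x : Matrix (Fin X.m) (Fin X.m) ℝ) * (c • y : X.n) - (c • y : X.n) * x =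
        c • (x * y - y * x)
      rw [Submodule.coe_smul, smul_mul_assoc, mul_smul_comm, smul_sub])

/-- The bracket of the images as a bilinear map. -/
noncomputable def brR (X : Dat) {m : ℕ} (T : X.n →ₗ[ℝ] Matrix (Fin m) (Fin m) ℝ) :
    X.n →ₗ[ℝ] X.n →ₗ[ℝ] Matrix (Fin m) (Fin m) ℝ :=
  LinearMap.mk₂ ℝ (fun x y : X.n => T x * T y - T y * T x)
    (by intro x x' y; rw [map_add]; noncomm_ring)
    (by intro c x y; rw [map_smul, smul_mul_assoc, mul_smul_comm, smul_sub])
    (by intro x y y'; rw [map_add]; noncomm_ring)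
    (by intro c x y; rw [map_smul, smul_mul_assoc, mul_smul_comm, smul_sub])

/-- The action of a diagonal matrix, followed by a linear map. -/
noncomputable def acL (X : Dat) {m : ℕ} (T : X.n →ₗ[ℝ] Matrix (Fin m) (Fin m) ℝ) (a : X.b) :
    X.n →ₗ[ℝ] Matrix (Fin m) (Fin m) ℝ where
  toFun x := T ⟨_, X.stab a a.2 x x.2⟩
  map_add' := by
    intro x x'
    rw [← map_add]
    congr 1
    apply Subtype.ext
    show diagonal (a : Fin X.m → ℝ) * ((x + x' : X.n) : Matrix (Fin X.m) (Fin X.m) ℝ) -
      (x + x' : X.n) * diagonal (a : Fin X.m → ℝ) =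
      (diagonal (a : Fin X.m → ℝ) * x - x * diagonal (a : Fin X.m → ℝ)) +
      (diagonal (a : Fin X.m → ℝ) * x' - x' * diagonal (a : Fin X.m → ℝ))
    rw [Submodule.coe_add]
    noncomm_ring
  map_smul' := by
    intro c x
    rw [RingHom.id_apply, ← map_smul]
    congr 1
    apply Subtype.ext
    show diagonal (a : Fin X.m → ℝ) * ((c • x : X.n) : Matrix (Fin X.m) (Fin X.m) ℝ) -
      (c • x : X.n) * diagonal (a : Fin X.m → ℝ) =
      c • (diagonal (a : Fin X.m → ℝ) * x - x * diagonal (a : Fin X.m → ℝ))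
    rw [Submodule.coe_smul, smul_mul_assoc, mul_smul_comm, smul_sub]

/-- The action on the images. -/
noncomputable def acR (X : Dat) {m : ℕ} (T : X.n →ₗ[ℝ] Matrix (Fin m) (Fin m) ℝ)
    (c : Fin m → ℝ) : X.n →ₗ[ℝ] Matrix (Fin m) (Fin m) ℝ where
  toFun x := diagonal c * T x - T x * diagonal c
  map_add' := by intro x x'; rw [map_add]; noncomm_ring
  map_smul' := by
    intro r x
    rw [RingHom.id_apply, map_smul, smul_mul_assoc, mul_smul_comm, smul_sub]

theorem aln (brn : BrnStmt) (csr : CsrStmt) : AlnStmt := by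
  classical
  intro X Y hX P hPb hAb hfin κ hκ C hC hli
  obtain ⟨hn, hw, hbr, -⟩ := hC
  obtain ⟨S, hS⟩ := hX.scal (fun j => (κ j)⁻¹) (fun j => inv_pos.2 (hκ j))
  set P' : X.b →ₗ[ℝ] (Fin Y.m → ℝ) := P.comp S with hP'
  have key : ∀ l i k, C l i k ≠ 0 → ∀ a : X.b, P' a i - P' a k = hX.rt l a := by
    intro l i k hne a
    have h1 := hw l i k hne (S a)
    have h2 := hS l a
    show P (S a) i - P (S a) k = hX.rt l a
    rw [h1, h2, ← mul_assoc, mul_inv_cancel₀ (hκ _).ne', one_mul]
  set B : Module.Basis hX.ι ℝ X.n :=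
    (Module.Basis.span hX.lin).map (LinearEquiv.ofEq _ _ hX.span_e) with hB
  have hBe : ∀ l, ((B l : X.n) : Matrix (Fin X.m) (Fin X.m) ℝ) = hX.e l := by
    intro l
    rw [hB, Module.Basis.map_apply, LinearEquiv.coe_ofEq_apply, Module.Basis.span_apply]
  set T : X.n →ₗ[ℝ] Matrix (Fin Y.m) (Fin Y.m) ℝ := B.constr ℝ C with hT
  have hTB : ∀ l, T (B l) = C l := fun l => Module.Basis.constr_basis B ℝ C l
  have hTn : ∀ x, T x ∈ Y.n := by
    intro x
    have h1 : T x ∈ LinearMap.range T := ⟨x, rfl⟩
    rw [hT, Module.Basis.constr_range] at h1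
    have h2 : Submodule.span ℝ (Set.range C) ≤ Y.n := by
      rw [Submodule.span_le]
      rintro _ ⟨l, rfl⟩
      exact nF_real Y _ (hn l)
    exact h2 h1
  have hlinC : ∀ z : hX.ι → ℝ, ∑ l, z l • C l = 0 → ∀ l, z l = 0 := by
    intro z hz l₀
    have hs : ∑ t ∈ Finset.univ.filter (fun t => hX.rt t = hX.rt l₀), z t • C t = 0 := by
      ext i k
      have h3 := congrFun (congrFun hz i) k
      rw [Matrix.sum_apply, Matrix.zero_apply] at h3
      rw [Matrix.sum_apply, Matrix.zero_apply, Finset.sum_filter]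
      by_cases hik : ∃ t, hX.rt t = hX.rt l₀ ∧ C t i k ≠ 0
      · obtain ⟨t₀, ht₀, htn⟩ := hik
        refine Eq.trans ?_ h3
        apply Finset.sum_congr rfl
        intro l _
        by_cases hl : hX.rt l = hX.rt l₀
        · rw [if_pos hl]
        · have h0 : C l i k = 0 := by
            by_contra h
            apply hl
            ext a
            rw [← key l i k h a, ← ht₀, ← key t₀ i k htn a]
          rw [if_neg hl, Matrix.smul_apply, h0, smul_zero]
      · push Not at hik
        apply Finset.sum_eq_zero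
        intro l _
        by_cases hl : hX.rt l = hX.rt l₀
        · rw [if_pos hl, Matrix.smul_apply, hik l hl, smul_zero]
        · rw [if_neg hl]
    rw [Finset.sum_subtype (p := fun t => hX.rt t = hX.rt l₀)
      (Finset.univ.filter (fun t => hX.rt t = hX.rt l₀)) (by intro x; simp)] at hs
    exact Fintype.linearIndependent_iff.1 (hli l₀) (fun t => z t.1) hs ⟨l₀, rfl⟩
  have hC0 : ∀ l, C l ≠ 0 := by
    intro l hl
    have h1 := hlinC (Pi.single l 1) (by
      apply Finset.sum_eq_zero
      intro l' _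
      by_cases h : l' = l
      · rw [h, hl, smul_zero]
      · rw [Pi.single_eq_of_ne h, zero_smul]) l
    rw [Pi.single_eq_same] at h1
    exact one_ne_zero h1
  have hTinj : Function.Injective T := by
    rw [injective_iff_map_eq_zero]
    intro x hx
    have h1 : T x = ∑ l, B.equivFun x l • C l := Module.Basis.constr_apply_fintype ℝ B C x
    rw [hx] at h1
    have h2 : B.equivFun x = 0 := funext (hlinC _ h1.symm)
    exact (LinearEquiv.map_eq_zero_iff B.equivFun).1 h2
  have hPinj : Function.Injective P' := by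
    rw [injective_iff_map_eq_zero]
    intro a ha
    apply hX.sep
    intro l
    obtain ⟨i, k, hik⟩ : ∃ i k, C l i k ≠ 0 := by
      by_contra hcon
      push Not at hcon
      exact hC0 l (Matrix.ext hcon)
    rw [← key l i k hik a, ha]
    simp
  have hP'b : ∀ a, P' a ∈ Y.b := fun a => hPb (S a)
  have hPci : Function.Injective (P'.codRestrict Y.b hP'b) := by
    intro a a' h
    exact hPinj (congrArg Subtype.val h)
  have hPcs : Function.Surjective (P'.codRestrict Y.b hP'b) :=
    (LinearMap.injective_iff_surjective_of_finrank_eq_finrank hfin).1 hPci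
  have hcomm : ∀ l l', hX.rt l = hX.rt l' → C l * C l' - C l' * C l = 0 := by
    intro l l' hll
    obtain ⟨E, hE⟩ : ∃ E : X.b ≃ₗ[ℝ] Y.b, ∀ a, E a = P'.codRestrict Y.b hP'b a :=
      ⟨LinearEquiv.ofBijective _ ⟨hPci, hPcs⟩, fun a => rfl⟩
    have hab : ∀ l₁, hX.rt l₁ = hX.rt l → ∀ c : Y.b,
        diagonal (c : Fin Y.m → ℝ) * C l₁ - C l₁ * diagonal (c : Fin Y.m → ℝ) =
          ((hX.rt l).comp E.symm.toLinearMap) c • C l₁ := by
      intro l₁ hl₁ c
      obtain ⟨a, rfl⟩ := E.surjective c
      have hρ : ((hX.rt l).comp E.symm.toLinearMap) (E a) = hX.rt l a := by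
        show hX.rt l (E.symm (E a)) = hX.rt l a
        rw [E.symm_apply_apply]
      have hc : ((E a : Y.b) : Fin Y.m → ℝ) = P' a := by
        rw [hE a]
        rfl
      rw [hρ, hc]
      ext i k
      rw [Matrix.smul_apply, Matrix.sub_apply, Matrix.diagonal_mul, Matrix.mul_diagonal,
        smul_eq_mul]
      by_cases h0 : C l₁ i k = 0
      · rw [h0]
        ring
      · rw [← hl₁, ← key l₁ i k h0 a]
        ring
    exact hAb _ (C l) (nF_real Y _ (hn l)) (C l') (nF_real Y _ (hn l')) (hab l rfl)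
      (hab l' hll.symm)
  refine ⟨T, P', hTn, hP'b, hTinj, hPinj, ?_, ?_⟩
  · have hbil : brL X T = brR X T := by
      apply B.ext
      intro l
      apply B.ext
      intro l'
      show T ⟨((B l : X.n) : Matrix (Fin X.m) (Fin X.m) ℝ) * (B l' : X.n) - (B l' : X.n) * (B l : X.n),
        _⟩ = T (B l) * T (B l') - T (B l') * T (B l)
      by_cases hll : hX.rt l = hX.rt l'
      · have : (⟨((B l : X.n) : Matrix (Fin X.m) (Fin X.m) ℝ) * (B l' : X.n) -
            (B l' : X.n) * (B l : X.n), X.lie _ (B l).2 _ (B l').2⟩ : X.n) = 0 := by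
          apply Subtype.ext
          show ((B l : X.n) : Matrix (Fin X.m) (Fin X.m) ℝ) * (B l' : X.n) -
            (B l' : X.n) * (B l : X.n) = 0
          rw [hBe, hBe]
          exact sub_eq_zero.2 (csr X hX l _ (Submodule.subset_span ⟨l, rfl, rfl⟩) _
            (Submodule.subset_span ⟨l', hll.symm, rfl⟩))
        rw [this, map_zero, hTB, hTB, hcomm l l' hll]
      · have h1 : (⟨((B l : X.n) : Matrix (Fin X.m) (Fin X.m) ℝ) * (B l' : X.n) -
            (B l' : X.n) * (B l : X.n), X.lie _ (B l).2 _ (B l').2⟩ : X.n) =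
            hX.br (fun t => B t) l l' := by
          apply Subtype.ext
          show ((B l : X.n) : Matrix (Fin X.m) (Fin X.m) ℝ) * (B l' : X.n) -
            (B l' : X.n) * (B l : X.n) = X.n.subtype (hX.br (fun t => B t) l l')
          rw [map_br, hBe, hBe, brn X hX l l' hll]
          congr 1
          funext t
          exact (hBe t).symm
        rw [h1, map_br, hTB, hTB, hbr l l' hll]
        congr 1
        funext t
        exact hTB t
    intro x y
    exact LinearMap.congr_fun (LinearMap.congr_fun hbil x) y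
  · intro a x
    have hlin : acL X T a = acR X T (P' a) := by
      apply B.ext
      intro l
      show T ⟨diagonal (a : Fin X.m → ℝ) * ((B l : X.n) : Matrix (Fin X.m) (Fin X.m) ℝ) -
        (B l : X.n) * diagonal (a : Fin X.m → ℝ), _⟩ =
        diagonal (P' a) * T (B l) - T (B l) * diagonal (P' a)
      have h1 : (⟨diagonal (a : Fin X.m → ℝ) * ((B l : X.n) : Matrix (Fin X.m) (Fin X.m) ℝ) -
        (B l : X.n) * diagonal (a : Fin X.m → ℝ), X.stab a a.2 _ (B l).2⟩ : X.n) =
          hX.rt l a • B l := by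
        apply Subtype.ext
        show diagonal (a : Fin X.m → ℝ) * ((B l : X.n) : Matrix (Fin X.m) (Fin X.m) ℝ) -
          (B l : X.n) * diagonal (a : Fin X.m → ℝ) =
          hX.rt l a • ((B l : X.n) : Matrix (Fin X.m) (Fin X.m) ℝ)
        rw [hBe, hX.wt l a]
      rw [h1, map_smul, hTB]
      ext i k
      rw [Matrix.smul_apply, Matrix.sub_apply, Matrix.diagonal_mul, Matrix.mul_diagonal,
        smul_eq_mul]
      by_cases h0 : C l i k = 0
      · rw [h0]
        ring
      · rw [← key l i k h0 a]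
        ring
    exact LinearMap.congr_fun hlin x

end Pool.Agent.QSN.H60
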